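import Mathlib

/-!
# A solution of `2 ^ (n - 2) ≡ 1 (mod n)` with last digit nine

`n = 1210344599 = 73 · 337 · 49199` divides `2 ^ (n - 2) - 1`.
-/

set_option autoImplicit false

namespace Pool.Agent.Results.MP_aad82b_nt.LastDigitNine

lemma key : (2 : ZMod 1210344599) ^ 1210344597 = 1 := by reduce_mod_char

/-- A number `n ≥ 2` with `2 ^ (n - 2) = 1` in `ℤ / n` is a solution. -/
lemma dvd_of_zmod (n k : ℕ) (h : (2 : ZMod n) ^ k = 1) : n ∣ 2 ^ k - 1 := by
  rw [← ZMod.natCast_eq_zero_iff, Nat.cast_sub Nat.one_le_two_pow]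
  push_cast
  rw [h, sub_self]

/-- There is an integer `n ≥ 2` whose decimal expansion ends in the digit `9` with
`n ∣ 2 ^ (n - 2) - 1`. -/
theorem result : ∃ n : ℕ, 2 ≤ n ∧ n % 10 = 9 ∧ n ∣ 2 ^ (n - 2) - 1 :=
  ⟨1210344599, by norm_num, by norm_num, dvd_of_zmod _ _ key⟩

end Pool.Agent.Results.MP_aad82b_nt.LastDigitNine
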